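import Mathlib
import Pool.Agent.Helper22.ETModel
import Pool.Agent.Helper22.TSModel
import Pool.Agent.Helper22.RDModel
import Pool.Agent.Helper22.RDLin

/-!
# A tradeoff between rounds and queries for Exact Triangle

The model (file `Pool/Agent/Helper22/RDModel.lean`): a randomized algorithm accesses the weights
through queries in `r` rounds. In every round it asks a list of queries, which may depend on all
answers of the earlier rounds, and it receives all the answers. The flags and the random bits are
known for free; memory and computing power are unlimited. The queries come from an arbitrary
family of functions (file `Pool/Agent/Helper22/TSModel.lean`); there is no bound on the number of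
functions in the family. Every query

* depends on at most `s` weights (and on the flags), with answers of any kind;
* changes its answer at most `Δ` times when one weight runs through `-n^300, …, n^300`.

For instance, the family can consist of the signs of all affine forms with real coefficients in at
most `s` of the weights; here `Δ = 2`. This contains all 3-linear, 4-linear and 6-linear
comparisons, which are used in the known linear decision trees with `n ^ (2 + o(1))` queries. So
without a bound on the number of rounds there is no lower bound above `n ^ (2 + o(1))` in this
model.

Theorem: if at most `D` queries are asked on every valid instance, then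
`n ^ (2 r + 1) ≤ (2 ^ 22 r ^ 3 s ^ 2 Δ D) ^ r`, that is,
`D ≥ n ^ (2 + 1 / r) / (2 ^ 22 r ^ 3 s ^ 2 Δ)`. For `r = 1` (non-adaptive algorithms) the bound is
`D ≥ n ^ 3 / (2 ^ 22 s ^ 2 Δ)`, which is attained by brute force up to the constant. For bounded
`s` and `Δ`, algorithms with `n ^ (3 - ε)` queries of this kind need at least
`1 / (1 - ε) - o(1)` rounds, and `n ^ (2 + o(1))` queries need an unbounded number of rounds.

Idea of the proof. Let `B ^ r ≤ n`. The weights on the edges of a tripartite graph are random
numbers with `r - 1` digits in base `B` and a long random tail; in one triangle the weight of the
last edge is replaced by the sum of the other two plus one. An algorithm has to distinguish this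
instance from the one in which the sum is zero. In round `i` (counted from `0`) the planted
instance looks to the algorithm like an instance in which only the upper `i` digits in the planted
triangle are correlated, because a query that sees a difference in the lower digits
must be close to a change of its answer. There are about `n ^ 3 / B ^ i` triangles
which could have been planted according to the upper digits (the `alive` ones); a second moment
bound for the number of alive triangles on an edge shows that few of them are touched in a
dangerous way.
-/

set_option autoImplicit false

namespace Pool.Agent.Results.MP_62fbe0_lc.BoundedRounds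

open Pool.Agent.Helper22.ETModel Pool.Agent.Helper22.TSModel Pool.Agent.Helper22.RDModel

/-- Tradeoff between rounds and queries for Exact Triangle, for general families of queries and,
as a special case, for all sparse linear queries with real coefficients. -/
theorem result :
    (∀ (n r s Δ D R : ℕ) (Q β : Type), 3 ≤ n → 1 ≤ r → 1 ≤ s → 1 ≤ Δ →
      ∀ F : Family n Q β, F.OK s Δ →
      ∀ A : RAlg n r R Q β, A.Decides F →
        (∀ I : Inst n, I.Valid → ∀ ρ, A.cost F I ρ ≤ D) →
        n ^ (2 * r + 1) ≤ (2 ^ 22 * (r ^ 3 * s ^ 2 * Δ * D)) ^ r) ∧
    (∀ n r s D R : ℕ, 3 ≤ n → 1 ≤ r → 1 ≤ s →
      ∀ A : RAlg n r R (RealQ n s) SignType, A.Decides (realFam n s) →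
        (∀ I : Inst n, I.Valid → ∀ ρ, A.cost (realFam n s) I ρ ≤ D) →
        n ^ (2 * r + 1) ≤ (2 ^ 23 * (r ^ 3 * s ^ 2 * D)) ^ r) :=
  ⟨fun _ _ _ _ _ _ _ _ hn hr hs hΔ F hF A hA hD =>
      Pool.Agent.Helper22.RDFinal.main hn hr hs hΔ F hF A hA hD,
    fun _ _ _ _ _ hn hr hs A hA hD => Pool.Agent.Helper22.RDLin.linear hn hr hs A hA hD⟩

end Pool.Agent.Results.MP_62fbe0_lc.BoundedRounds
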