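import Mathlib
import Pool.Agent.Helper22.ETModel
import Pool.Agent.Helper22.TLModel
import Pool.Agent.Helper22.TLMain
import Pool.Agent.Helper22.TLUpper

/-!
# Circuits for Exact Triangle: a cubic lower bound weighted by reuse

The model (file `Pool/Agent/Helper22/TLModel.lean`): a circuit is a straight-line program whose
lines are expressions; the value of every line is stored and may be referred to again by later
lines, arbitrarily often. The leaves of the expressions are

* `read` leaves: arbitrary functions (any bit operations) of the flags and of at most `s` weights,
* references to stored values;

the gates are arbitrary functions over an alphabet with `q` letters, of arbitrary fan-in, with at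
most `Q` subfunctions (`Q = q` for all gates of fan-in at most two, `Q = k + 1` for the symmetric
Boolean gates of fan-in `k`, such as threshold and modular gates: see `subCount_fanin_two`,
`subCount_symmetric` in `Pool/Agent/Helper22/TLUpper.lean`). Every circuit, in the usual sense, has
this form: store the values of the gates of fan-out at least two.

Theorem: a randomized circuit that decides Exact Triangle with bounded error on the valid
instances satisfies

`n ^ 3 ≤ 2 ^ 11 (s L (s + Z) + W Z)`,  `Z = q log q + log Q`,

where `L` is the number of `read` leaves and `W`, the weight of the reuse, is the sum over all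
references to stored values of the number of weights that the stored value uses. For formulas
(`W = 0`) this says `L ≥ n ^ 3 / (2 ^ 11 s (s + Z))`, and `binom n 3` leaves reading three weights
each suffice. In general a circuit with at most `n ^ (3 - ε)` leaves has to reuse values that
depend on `n ^ ε / O(1)` weights, on average over its leaves, when `s`, `q`, `Q` are bounded.

The proof extends Nechiporuk's method (counting the subfunctions in the weight of one edge) to
local functions, to reuse, and to bounded error: for a fixed circuit and a typical edge `e` the
circuit has fewer than `2 ^ (c n)` subfunctions in the weight of `e`, even when the few weights seen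
together with `e` are fixed; by an exponential moment bound none of them can tell the `n / 3`
random values that create a zero triangle from a uniformly random value.
-/

set_option autoImplicit false

namespace Pool.Agent.Results.MP_62fbe0_lc.ReuseWeightedCircuits

open Pool.Agent.Helper22.ETModel Pool.Agent.Helper22.TLModel

/-- Cubic lower bound for circuits, weighted by the reuse of stored values, and the matching upper
bound for formulas. -/
theorem result :
    (∀ (n s q Q L W R : ℕ) (α : Type) [Fintype α], 3 ≤ n → Fintype.card α = q → 1 ≤ Q →
      ∀ F : RandCirc n R α,
        (∀ f ρ, (F.circ f ρ).OK s Q ∧ (F.circ f ρ).reads ≤ L ∧ (F.circ f ρ).reuse ≤ W) →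
        F.Decides →
        (n : ℝ) ^ 3 ≤ 2 ^ 11 * (s * L * (s + q * Real.logb 2 q + Real.logb 2 Q) +
          W * (q * Real.logb 2 q + Real.logb 2 Q))) ∧
    (∀ n : ℕ, ∃ C : Circ n Bool, C.OK 3 2 ∧ C.reads = n.choose 3 ∧ C.reuse = 0 ∧
      ∀ I : Inst n, (C.eval I = true ↔ I.Yes)) := by
  refine ⟨?_, fun n => ⟨Pool.Agent.Helper22.TLUpper.brute n,
    Pool.Agent.Helper22.TLUpper.brute_ok n, Pool.Agent.Helper22.TLUpper.brute_reads n,
    Pool.Agent.Helper22.TLUpper.brute_reuse n, Pool.Agent.Helper22.TLUpper.brute_eval n⟩⟩
  intro n s q Q L W R α _ hn hq hQ F hOK hdec
  subst hq
  exact Pool.Agent.Helper22.TLMain.main hn hQ F hOK hdec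

end Pool.Agent.Results.MP_62fbe0_lc.ReuseWeightedCircuits
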