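import Mathlib
import Pool.Agent.Helper22.ETModel
import Pool.Agent.Helper22.TSModel
import Pool.Agent.Helper22.TSLin

/-!
# A time-space tradeoff for Exact Triangle in the linear query model (and beyond)

The model (file `Pool/Agent/Helper22/TSModel.lean`): a randomized algorithm with `W` memory states
accesses the weights through `D` adaptive queries; the flags, the random bits and the time are
known for free, and the computation between two queries is arbitrary. The queries come from a
fixed family of functions, indexed by a finite type `Q`. Every query

* depends on at most `s` weights (and on the flags), with answers of any kind;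
* changes its answer at most `Δ` times when one weight runs through `-n^300, …, n^300`.

The family may be very large: `|Q| Δ ≤ n ^ 290`. For instance, it can consist of all sign queries
of integer affine forms in at most `s` weights with coefficients at most `n ^ c`, when
`s (c + 3) + c + 2 ≤ 290`. This contains all 3-linear, 4-linear and 6-linear comparisons, hence the
known linear decision trees with `O(n ^ (5/2))` and with `n ^ 2 polylog n` queries; so without a
bound on the memory there is no lower bound above `n ^ (2 + o(1))` in this model.

Theorem: `n ^ 8 ≤ 2 ^ 45 s ^ 5 D ^ 3 (1 + log W)`. For bounded `s`: algorithms with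
`n ^ (2 + o(1))` queries need `n ^ (2 - o(1))` bits of memory, and algorithms with `n ^ o(1)` bits
of memory need `n ^ (8/3 - o(1))` queries. (Brute force needs one bit of memory and `n ^ 3` queries
with `s = 3`, `c = 0`: see `brute_decides` in `Pool/Agent/Helper22/TSLin.lean`.)

Idea of the proof. In a random instance about `n ^ 2` random triangles are planted with sum `-1`;
any of them could have the sum zero instead, and for an isolated planted triangle only a
query reading all its three edges can tell the difference. In a window of `d` queries at most
`(s d) ^ (3/2)` triangles are read completely, by the Loomis-Whitney inequality. An exponential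
moment bound, valid for adaptive algorithms without any bound on the memory, shows that
the number of planted ones among them is at most `O((s d) ^ (3/2) / n + log W)` on average, even for
the best of `W` starting states.
-/

set_option autoImplicit false

namespace Pool.Agent.Helper22.Old.TimeSpaceTradeoff

open Pool.Agent.Helper22.ETModel Pool.Agent.Helper22.TSModel

/-- Time-space tradeoff for Exact Triangle, for general families of queries and, as a special case,
for all sparse linear queries. -/
theorem result :
    (∀ (n s Δ D W R : ℕ) (Q β : Type) [Fintype Q], 3 ≤ n →
      ∀ F : Family n Q β, F.OK s Δ → Fintype.card Q * Δ ≤ n ^ 290 →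
      ∀ A : Alg n D W R Q β, A.Decides F →
        (n : ℝ) ^ 8 ≤ 2 ^ 45 * s ^ 5 * D ^ 3 * (1 + Real.logb 2 W)) ∧
    (∀ n s c D W R : ℕ, 3 ≤ n → s * (c + 3) + c + 2 ≤ 290 →
      ∀ A : Alg n D W R (LinQ n s (n ^ c)) SignType, A.Decides (linFam n s (n ^ c)) →
        (n : ℝ) ^ 8 ≤ 2 ^ 45 * s ^ 5 * D ^ 3 * (1 + Real.logb 2 W)) :=
  ⟨fun _ _ _ _ _ _ _ _ _ hn F hF hQ A hA => Pool.Agent.Helper22.TSFinal.main hn F hF hQ A hA,
    fun _ _ _ _ _ _ hn hc A hA => Pool.Agent.Helper22.TSLin.linear hn hc A hA⟩

end Pool.Agent.Helper22.Old.TimeSpaceTradeoff
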